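import Pool.Agent.P.MP_bbed2d_pr.Main

open Pool.Agent.P.MP_bbed2d_pr

namespace Pool.Agent.Results.MP_bbed2d_pr.Counterexample

theorem result : ∀ p : ℝ, 2 < p → ∀ C : ℝ,
    ∃ (n : ℕ) (G : SimpleGraph (Fin n)) (I : Finset (Fin n)) (f h : Fin n → ℝ) (ε : ℝ),
      G.Connected ∧ I.Nonempty ∧ Iᶜ.Nonempty ∧ (∀ u v, u ∉ I → v ∉ I → ¬ G.Adj u v) ∧
      (∀ v, 0 ≤ f v ∧ f v ≤ 1) ∧ IsHarmExt G p I f h ∧ 0 < ε ∧ ε ≤ 1 / 2 ∧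
      ENNReal.ofReal (C * I.card * G.edgeSet.ncard * G.diam * Real.log (n / ε))
        < expTau G p I f h ε :=
  main

end Pool.Agent.Results.MP_bbed2d_pr.Counterexample
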